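import Mathlib
import Pool.Agent.H73.G.R8.TH813.Ell0

set_option autoImplicit false

open Filter
open scoped Topology PeriodPair

noncomputable section

namespace Pool.Agent.TH813.Ell

open H667R3 Pool.Agent.W245.EB

variable {L : PeriodPair}

/-- `ℂ` has no isolated points for the filter -/
instance codiscrete_neBot : (codiscrete ℂ).NeBot := by
  constructor
  intro h
  have h1 : (∅ : Set ℂ) ∈ codiscrete ℂ := by rw [h]; exact mem_bot
  rw [mem_codiscrete] at h1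
  have h2 := h1 0
  rw [Set.compl_empty, principal_univ, disjoint_top] at h2
  exact (inferInstance : (𝓝[≠] (0 : ℂ)).NeBot).ne h2

namespace Tr11

/-! ### codiscrete sets -/

theorem ev_iff {p : ℂ → Prop} : (∀ᶠ z in codiscrete ℂ, p z) ↔ ∀ x, ∀ᶠ z in 𝓝[≠] x, p z := by
  rw [Filter.Eventually, mem_codiscrete]
  refine forall_congr' fun x => ?_
  rw [disjoint_principal_right, compl_compl]
  rfl

theorem ev_lat (L : PeriodPair) : ∀ᶠ z in codiscrete ℂ, z ∉ L.lattice := by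
  rw [ev_iff]
  intro x
  filter_upwards [nhdsWithin_le_nhds (L.compl_lattice_sdiff_singleton_mem_nhds x),
    self_mem_nhdsWithin] with z h1 h2 h3
  exact h1 ⟨h3, h2⟩

theorem ev_lat2 (L : PeriodPair) : ∀ᶠ z in codiscrete ℂ, 2 * z ∉ L.lattice := by
  rw [ev_iff]
  intro x
  have hc : Tendsto (fun z : ℂ => 2 * z) (𝓝 x) (𝓝 (2 * x)) :=
    (continuous_const.mul continuous_id).tendsto x
  filter_upwards [nhdsWithin_le_nhds (hc (L.compl_lattice_sdiff_singleton_mem_nhds (2 * x))),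
    self_mem_nhdsWithin] with z h1 h2 h3
  refine h1 ⟨h3, ?_⟩
  intro h4
  exact h2 (mul_left_cancel₀ two_ne_zero h4)

theorem ev_ne (L : PeriodPair) (c : ℂ) : ∀ᶠ z in codiscrete ℂ, ℘[L] z ≠ c := by
  have hm : Meromorphic (fun z => ℘[L] z - c) :=
    fun x => (L.meromorphic_weierstrassP x).sub (MeromorphicAt.const c x)
  have h0 : meromorphicOrderAt (fun z => ℘[L] z - c) 0 ≠ ⊤ := by
    rw [meromorphicOrderAt_ne_top_iff_eventually_ne_zero (hm 0)]
    have h1 : meromorphicOrderAt ℘[L] 0 < 0 := by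
      rw [L.order_weierstrassP 0 (zero_mem _)]
      decide
    have h2 := tendsto_cobounded_of_meromorphicOrderAt_neg h1
    have h3 : ∀ᶠ y in Bornology.cobounded ℂ, y ≠ c :=
      (Bornology.eventually_ne_cobounded c)
    filter_upwards [h2.eventually h3] with z hz
    exact sub_ne_zero.mpr hz
  have h1 : ∀ x ∈ Set.univ, meromorphicOrderAt (fun z => ℘[L] z - c) x ≠ ⊤ := fun x _ =>
    (meromorphicOn_univ.mpr hm).meromorphicOrderAt_ne_top_of_isPreconnected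
      isPreconnected_univ (Set.mem_univ 0) (Set.mem_univ x) h0
  have h2 := (meromorphicOn_univ.mpr hm).eventually_codiscreteWithin_apply_ne_zero h1
  filter_upwards [h2] with z hz
  exact sub_ne_zero.mp hz

theorem ev_poly (L : PeriodPair) {P : Polynomial ℂ} (hP : P ≠ 0) :
    ∀ᶠ z in codiscrete ℂ, P.eval (℘[L] z) ≠ 0 := by
  have h : ∀ᶠ z in codiscrete ℂ, ∀ c ∈ P.roots.toFinset, ℘[L] z ≠ c :=
    (Filter.eventually_all_finset _).mpr fun c _ => ev_ne L c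
  filter_upwards [h] with z hz h0
  exact hz (℘[L] z) (by rw [Multiset.mem_toFinset, Polynomial.mem_roots hP]; exact h0) rfl

/-! ### closure of elliptic functions -/

theorem e_add {f g : ℂ → ℂ} (hf : Ellip L f) (hg : Ellip L g) : Ellip L (fun z => f z + g z) :=
  ⟨fun x => (hf.1 x).add (hg.1 x), fun l hl => by
    filter_upwards [hf.2 l hl, hg.2 l hl] with z h1 h2
    rw [h1, h2]⟩

theorem e_mul {f g : ℂ → ℂ} (hf : Ellip L f) (hg : Ellip L g) : Ellip L (fun z => f z * g z) :=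
  ⟨fun x => (hf.1 x).mul (hg.1 x), fun l hl => by
    filter_upwards [hf.2 l hl, hg.2 l hl] with z h1 h2
    rw [h1, h2]⟩

theorem e_inv {f : ℂ → ℂ} (hf : Ellip L f) : Ellip L (fun z => (f z)⁻¹) :=
  ⟨fun x => (hf.1 x).inv, fun l hl => by
    filter_upwards [hf.2 l hl] with z h1
    rw [h1]⟩

theorem e_const (c : ℂ) : Ellip L (fun _ => c) :=
  ⟨fun x => MeromorphicAt.const c x, fun _ _ => EventuallyEq.rfl⟩

theorem e_wp : Ellip L ℘[L] :=
  ⟨L.meromorphic_weierstrassP, fun l hl => Eventually.of_forall fun z =>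
    L.periodic_weierstrassP ⟨l, hl⟩ z⟩

theorem e_wp' : Ellip L ℘'[L] :=
  ⟨L.meromorphic_derivWeierstrassP, fun l hl => Eventually.of_forall fun z =>
    L.periodic_derivWeierstrassP ⟨l, hl⟩ z⟩

theorem e_diff {f : ℂ → ℂ} (hf : Ellip L f) : ∀ᶠ z in codiscrete ℂ, DifferentiableAt ℂ f z := by
  have := (meromorphicOn_univ.mpr hf.1).eventually_codiscreteWithin_analyticAt
  filter_upwards [this] with z hz
  exact hz.differentiableAt

/-! ### evaluation of polynomials -/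

variable {K₁ : Type*} [Field K₁] [Algebra K₁ ℂ]

/-- evaluation at `(℘ z, ℘' z)` -/
def ev (L : PeriodPair) (K₁ : Type*) [Field K₁] [Algebra K₁ ℂ] (z : ℂ) :
    MvPolynomial (Fin 2) K₁ →+* ℂ :=
  MvPolynomial.eval₂Hom (algebraMap K₁ ℂ) ![℘[L] z, ℘'[L] z]

theorem ev_C (z : ℂ) (k : K₁) : ev L K₁ z (MvPolynomial.C k) = algebraMap K₁ ℂ k := by
  simp [ev]

theorem ev_X0 (z : ℂ) : ev L K₁ z (MvPolynomial.X 0) = ℘[L] z := by
  simp [ev]

theorem ev_X1 (z : ℂ) : ev L K₁ z (MvPolynomial.X 1) = ℘'[L] z := by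
  simp [ev]

/-- the cubic -/
def cub (a b : K₁) : Polynomial K₁ :=
  Polynomial.C 4 * Polynomial.X ^ 3 - Polynomial.C a * Polynomial.X - Polynomial.C b

theorem cub_eval {a b : K₁} (ha : algebraMap K₁ ℂ a = L.g₂) (hb : algebraMap K₁ ℂ b = L.g₃) {z : ℂ}
    (hz : z ∉ L.lattice) : (cub a b).eval₂ (algebraMap K₁ ℂ) (℘[L] z) = ℘'[L] z ^ 2 := by
  rw [L.derivWeierstrassP_sq z hz]
  rw [cub, Polynomial.eval₂_sub, Polynomial.eval₂_sub, Polynomial.eval₂_mul, Polynomial.eval₂_mul,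
    Polynomial.eval₂_C, Polynomial.eval₂_C, Polynomial.eval₂_C, Polynomial.eval₂_X,
    Polynomial.eval₂_pow, Polynomial.eval₂_X, ha, hb, map_ofNat]

theorem cub_deg [CharZero K₁] (a b : K₁) : (cub a b).natDegree = 3 := by
  unfold cub
  compute_degree!

theorem normal {a b : K₁} (ha : algebraMap K₁ ℂ a = L.g₂) (hb : algebraMap K₁ ℂ b = L.g₃)
    (P : MvPolynomial (Fin 2) K₁) : ∃ p q : Polynomial K₁, ∀ z, z ∉ L.lattice →
      ev L K₁ z P = p.eval₂ (algebraMap K₁ ℂ) (℘[L] z) +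
        q.eval₂ (algebraMap K₁ ℂ) (℘[L] z) * ℘'[L] z := by
  induction P using MvPolynomial.induction_on with
  | C k => exact ⟨Polynomial.C k, 0, fun z _ => by rw [ev_C]; simp⟩
  | add P Q hP hQ =>
    obtain ⟨p, q, h1⟩ := hP
    obtain ⟨p', q', h2⟩ := hQ
    refine ⟨p + p', q + q', fun z hz => ?_⟩
    rw [map_add, h1 z hz, h2 z hz, Polynomial.eval₂_add, Polynomial.eval₂_add]
    ring
  | mul_X P i hP =>
    obtain ⟨p, q, h1⟩ := hP
    fin_cases i
    · refine ⟨p * Polynomial.X, q * Polynomial.X, fun z hz => ?_⟩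
      rw [map_mul, h1 z hz]
      change _ * ev L K₁ z (MvPolynomial.X 0) = _
      rw [ev_X0, Polynomial.eval₂_mul, Polynomial.eval₂_mul, Polynomial.eval₂_X]
      ring
    · refine ⟨q * cub a b, p, fun z hz => ?_⟩
      rw [map_mul, h1 z hz]
      change _ * ev L K₁ z (MvPolynomial.X 1) = _
      rw [ev_X1, Polynomial.eval₂_mul, cub_eval ha hb hz]
      ring

theorem no_sq [CharZero K₁] {a b : K₁} {p q : Polynomial K₁} (h : p ^ 2 - q ^ 2 * cub a b = 0) :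
    p = 0 ∧ q = 0 := by
  have hc : cub a b ≠ 0 := by
    intro h0
    have := cub_deg a b
    rw [h0] at this
    simp at this
  by_cases hq : q = 0
  · subst hq
    refine ⟨?_, rfl⟩
    have : p ^ 2 = 0 := by
      rw [← h]; ring
    exact pow_eq_zero_iff (by norm_num) |>.mp this
  · exfalso
    have h1 : p ^ 2 = q ^ 2 * cub a b := sub_eq_zero.mp h
    have h2 := congrArg Polynomial.natDegree h1
    rw [Polynomial.natDegree_mul (pow_ne_zero _ hq) hc, Polynomial.natDegree_pow,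
      Polynomial.natDegree_pow, cub_deg] at h2
    omega

theorem char0 : CharZero K₁ := (algebraMap K₁ ℂ).charZero

theorem ker {a b : K₁} (ha : algebraMap K₁ ℂ a = L.g₂) (hb : algebraMap K₁ ℂ b = L.g₃) {w : ℂ}
    (hw : w ∉ L.lattice) (hy : Transcendental K₁ (℘[L] w)) {P : MvPolynomial (Fin 2) K₁}
    (hP : ev L K₁ w P = 0) : ∀ z, z ∉ L.lattice → ev L K₁ z P = 0 := by
  haveI : CharZero K₁ := char0
  obtain ⟨p, q, h⟩ := normal ha hb P
  have h1 : Polynomial.aeval (℘[L] w) (p ^ 2 - q ^ 2 * cub a b) = 0 := by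
    rw [Polynomial.aeval_def, Polynomial.eval₂_sub, Polynomial.eval₂_mul, Polynomial.eval₂_pow,
      Polynomial.eval₂_pow, cub_eval ha hb hw]
    have h2 := h w hw
    rw [hP] at h2
    linear_combination -(p.eval₂ (algebraMap K₁ ℂ) (℘[L] w) -
      q.eval₂ (algebraMap K₁ ℂ) (℘[L] w) * ℘'[L] w) * h2
  have h2 := (transcendental_iff.mp hy) _ h1
  obtain ⟨hp, hq⟩ := no_sq h2
  intro z hz
  rw [h z hz, hp, hq]
  simp

theorem unit_ev {a b : K₁} (ha : algebraMap K₁ ℂ a = L.g₂) (hb : algebraMap K₁ ℂ b = L.g₃) {w : ℂ}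
    (hw : w ∉ L.lattice) {P : MvPolynomial (Fin 2) K₁}
    (hP : ev L K₁ w P ≠ 0) : ∀ᶠ z in codiscrete ℂ, ev L K₁ z P ≠ 0 := by
  haveI : CharZero K₁ := char0
  obtain ⟨p, q, h⟩ := normal ha hb P
  have hN : p ^ 2 - q ^ 2 * cub a b ≠ 0 := by
    intro h0
    obtain ⟨hp, hq⟩ := no_sq h0
    apply hP
    rw [h w hw, hp, hq]
    simp
  have hN' : (p ^ 2 - q ^ 2 * cub a b).map (algebraMap K₁ ℂ) ≠ 0 :=
    (Polynomial.map_ne_zero_iff (algebraMap K₁ ℂ).injective).mpr hN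
  filter_upwards [ev_poly L hN', ev_lat L] with z h1 hz h0
  apply h1
  rw [Polynomial.eval_map, Polynomial.eval₂_sub, Polynomial.eval₂_mul, Polynomial.eval₂_pow,
    Polynomial.eval₂_pow, cub_eval ha hb hz]
  have h2 := h z hz
  rw [h0] at h2
  linear_combination -(p.eval₂ (algebraMap K₁ ℂ) (℘[L] z) -
      q.eval₂ (algebraMap K₁ ℂ) (℘[L] z) * ℘'[L] z) * h2

/-- the germ of a polynomial -/
def psi (L : PeriodPair) (K₁ : Type*) [Field K₁] [Algebra K₁ ℂ] :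
    MvPolynomial (Fin 2) K₁ →+* Germ (codiscrete ℂ) ℂ :=
  (Germ.coeRingHom (codiscrete ℂ)).comp (Pi.ringHom (fun z => ev L K₁ z))

theorem psi_apply (P : MvPolynomial (Fin 2) K₁) :
    psi L K₁ P = ((fun z => ev L K₁ z P : ℂ → ℂ) : Germ (codiscrete ℂ) ℂ) := rfl

theorem psi_zero {a b : K₁} (ha : algebraMap K₁ ℂ a = L.g₂) (hb : algebraMap K₁ ℂ b = L.g₃) {w : ℂ}
    (hw : w ∉ L.lattice) (hy : Transcendental K₁ (℘[L] w)) {P : MvPolynomial (Fin 2) K₁}
    (hP : ev L K₁ w P = 0) : psi L K₁ P = 0 := by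
  rw [psi_apply]
  refine Germ.coe_eq.mpr ?_
  filter_upwards [ev_lat L] with z hz
  exact ker ha hb hw hy hP z hz

theorem psi_unit {a b : K₁} (ha : algebraMap K₁ ℂ a = L.g₂) (hb : algebraMap K₁ ℂ b = L.g₃) {w : ℂ}
    (hw : w ∉ L.lattice) {P : MvPolynomial (Fin 2) K₁}
    (hP : ev L K₁ w P ≠ 0) : ∃ v : Germ (codiscrete ℂ) ℂ, psi L K₁ P * v = 1 := by
  refine ⟨((fun z => (ev L K₁ z P)⁻¹ : ℂ → ℂ) : Germ (codiscrete ℂ) ℂ), ?_⟩
  rw [psi_apply, ← Germ.coe_mul]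
  refine Germ.coe_eq.mpr ?_
  filter_upwards [unit_ev ha hb hw hP] with z hz
  exact mul_inv_cancel₀ hz

/-- the graph of the transfer -/
def Rel (L : PeriodPair) (K₁ : Type*) [Field K₁] [Algebra K₁ ℂ] (w : ℂ) (x : ℂ)
    (g : Germ (codiscrete ℂ) ℂ) : Prop :=
  ∃ P Q : MvPolynomial (Fin 2) K₁, ev L K₁ w Q ≠ 0 ∧ x * ev L K₁ w Q = ev L K₁ w P ∧
    g * psi L K₁ Q = psi L K₁ P

theorem Rel.uniq {a b : K₁} (ha : algebraMap K₁ ℂ a = L.g₂) (hb : algebraMap K₁ ℂ b = L.g₃) {w : ℂ}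
    (hw : w ∉ L.lattice) (hy : Transcendental K₁ (℘[L] w)) {x : ℂ} {g g' : Germ (codiscrete ℂ) ℂ}
    (h : Rel L K₁ w x g) (h' : Rel L K₁ w x g') : g = g' := by
  obtain ⟨P, Q, h1, h2, h3⟩ := h
  obtain ⟨P', Q', h1', h2', h3'⟩ := h'
  have h4 : ev L K₁ w (P * Q' - P' * Q) = 0 := by
    rw [map_sub, map_mul, map_mul, ← h2, ← h2']; ring
  have h5 := psi_zero ha hb hw hy h4
  rw [map_sub, map_mul, map_mul, ← h3, ← h3'] at h5
  obtain ⟨v, hv⟩ := psi_unit ha hb hw h1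
  obtain ⟨v', hv'⟩ := psi_unit ha hb hw h1'
  have h6 : (g - g') * (psi L K₁ Q * v) * (psi L K₁ Q' * v') = 0 := by
    calc (g - g') * (psi L K₁ Q * v) * (psi L K₁ Q' * v')
        = (g * psi L K₁ Q * psi L K₁ Q' - g' * psi L K₁ Q' * psi L K₁ Q) * (v * v') := by ring
      _ = 0 := by rw [h5, zero_mul]
  rw [hv, hv', mul_one, mul_one] at h6
  exact sub_eq_zero.mp h6

theorem Rel.add {w x x' : ℂ} {g g' : Germ (codiscrete ℂ) ℂ}
    (h : Rel L K₁ w x g) (h' : Rel L K₁ w x' g') : Rel L K₁ w (x + x') (g + g') := by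
  obtain ⟨P, Q, h1, h2, h3⟩ := h
  obtain ⟨P', Q', h1', h2', h3'⟩ := h'
  refine ⟨P * Q' + P' * Q, Q * Q', ?_, ?_, ?_⟩
  · rw [map_mul]; exact mul_ne_zero h1 h1'
  · rw [map_mul, map_add, map_mul, map_mul, ← h2, ← h2']; ring
  · rw [map_mul, map_add, map_mul, map_mul, ← h3, ← h3']; ring

theorem Rel.mul {w x x' : ℂ} {g g' : Germ (codiscrete ℂ) ℂ}
    (h : Rel L K₁ w x g) (h' : Rel L K₁ w x' g') : Rel L K₁ w (x * x') (g * g') := by
  obtain ⟨P, Q, h1, h2, h3⟩ := h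
  obtain ⟨P', Q', h1', h2', h3'⟩ := h'
  refine ⟨P * P', Q * Q', ?_, ?_, ?_⟩
  · rw [map_mul]; exact mul_ne_zero h1 h1'
  · rw [map_mul, map_mul, ← h2, ← h2']; ring
  · rw [map_mul, map_mul, ← h3, ← h3']; ring

theorem Rel.alg (w : ℂ) (k : K₁) : Rel L K₁ w (algebraMap K₁ ℂ k)
    ((fun _ => algebraMap K₁ ℂ k : ℂ → ℂ) : Germ (codiscrete ℂ) ℂ) := by
  refine ⟨MvPolynomial.C k, 1, ?_, ?_, ?_⟩
  · rw [map_one]; exact one_ne_zero
  · rw [map_one, mul_one, ev_C]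
  · rw [map_one, mul_one, psi_apply]
    congr 1
    funext z
    rw [ev_C]

theorem Rel.x (w : ℂ) : Rel L K₁ w (℘[L] w) ((℘[L] : ℂ → ℂ) : Germ (codiscrete ℂ) ℂ) := by
  refine ⟨MvPolynomial.X 0, 1, ?_, ?_, ?_⟩
  · rw [map_one]; exact one_ne_zero
  · rw [map_one, mul_one, ev_X0]
  · rw [map_one, mul_one, psi_apply]
    congr 1
    funext z
    rw [ev_X0]

theorem Rel.y (w : ℂ) : Rel L K₁ w (℘'[L] w) ((℘'[L] : ℂ → ℂ) : Germ (codiscrete ℂ) ℂ) := by
  refine ⟨MvPolynomial.X 1, 1, ?_, ?_, ?_⟩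
  · rw [map_one]; exact one_ne_zero
  · rw [map_one, mul_one, ev_X1]
  · rw [map_one, mul_one, psi_apply]
    congr 1
    funext z
    rw [ev_X1]

theorem Rel.inv {a b : K₁} (ha : algebraMap K₁ ℂ a = L.g₂) (hb : algebraMap K₁ ℂ b = L.g₃) {w : ℂ}
    (hw : w ∉ L.lattice) {x : ℂ} {g : Germ (codiscrete ℂ) ℂ} (h : Rel L K₁ w x g) :
    ∃ g', Rel L K₁ w x⁻¹ g' := by
  by_cases hx : x = 0
  · subst hx
    refine ⟨0, 0, 1, ?_, ?_, ?_⟩
    · rw [map_one]; exact one_ne_zero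
    · simp
    · simp
  · obtain ⟨P, Q, h1, h2, h3⟩ := h
    have h4 : ev L K₁ w P ≠ 0 := by rw [← h2]; exact mul_ne_zero hx h1
    obtain ⟨v, hv⟩ := psi_unit ha hb hw h4
    refine ⟨psi L K₁ Q * v, Q, P, h4, ?_, ?_⟩
    · rw [← h2, inv_mul_cancel_left₀ hx]
    · rw [mul_assoc, mul_comm v, hv, mul_one]

end Tr11

open Tr11

theorem dwp' {K₁ : Type*} [Field K₁] [Algebra K₁ ℂ] {w : ℂ} (hw : 2 * w ∉ L.lattice)
    (h2 : L.g₂ ∈ (algebraMap K₁ ℂ).range) (h3 : L.g₃ ∈ (algebraMap K₁ ℂ).range)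
    (D : Derivation K₁ ℂ ℂ) (hD : D (℘[L] w) = ℘'[L] w) :
    D (℘'[L] w) = 6 * ℘[L] w ^ 2 - L.g₂ / 2 := by
  have hw1 : w ∉ L.lattice := fun h => hw (by rw [two_mul]; exact add_mem h h)
  obtain ⟨a, ha⟩ := h2
  obtain ⟨b, hb⟩ := h3
  have e := congrArg D (L.derivWeierstrassP_sq w hw1)
  rw [← ha, ← hb, map_sub, map_sub, Derivation.map_algebraMap, D.leibniz, D.leibniz,
    Derivation.map_algebraMap, D.leibniz_pow, D.leibniz_pow, hD] at e
  have e4 : D (4 : ℂ) = 0 := by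
    have := D.map_natCast 4
    exact_mod_cast this
  rw [e4] at e
  simp only [smul_eq_mul, nsmul_eq_mul] at e
  have h5 := wp'_ne_zero L hw
  apply mul_left_cancel₀ (mul_ne_zero two_ne_zero h5)
  rw [ha] at e
  push_cast at e
  linear_combination e

/-- the field generated by the generic point is stable under the derivation -/
theorem der_mem {K₁ : Type*} [Field K₁] [Algebra K₁ ℂ] {w : ℂ} (hw : 2 * w ∉ L.lattice)
    (h2 : L.g₂ ∈ (algebraMap K₁ ℂ).range) (h3 : L.g₃ ∈ (algebraMap K₁ ℂ).range)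
    (D : Derivation K₁ ℂ ℂ) (hD : D (℘[L] w) = ℘'[L] w) {e : ℂ}
    (he : e ∈ IntermediateField.adjoin K₁ ({℘[L] w, ℘'[L] w} : Set ℂ)) :
    D e ∈ IntermediateField.adjoin K₁ ({℘[L] w, ℘'[L] w} : Set ℂ) := by
  set E := IntermediateField.adjoin K₁ ({℘[L] w, ℘'[L] w} : Set ℂ) with hE
  have hx : ℘[L] w ∈ E := IntermediateField.subset_adjoin _ _ (by simp)
  have hy : ℘'[L] w ∈ E := IntermediateField.subset_adjoin _ _ (by simp)
  have hd := dwp' hw h2 h3 D hD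
  induction he using IntermediateField.adjoin_induction with
  | mem x hx' =>
    rcases hx' with rfl | hx'
    · rw [hD]; exact hy
    · rw [Set.mem_singleton_iff] at hx'
      subst hx'
      rw [hd]
      obtain ⟨a, ha⟩ := h2
      rw [← ha]
      refine sub_mem (mul_mem ?_ (pow_mem hx 2)) (div_mem (E.algebraMap_mem a) ?_)
      · exact ofNat_mem E 6
      · exact ofNat_mem E 2
  | algebraMap k => rw [Derivation.map_algebraMap]; exact zero_mem _
  | add x y hx hy ihx ihy => rw [map_add]; exact add_mem ihx ihy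
  | inv x hx ihx =>
    rw [Derivation.leibniz_inv]
    exact mul_mem (neg_mem (pow_mem (inv_mem hx) 2)) ihx
  | mul x y hx hy ihx ihy =>
    rw [D.leibniz]
    exact add_mem (mul_mem hx ihy) (mul_mem hy ihx)

/-- **Transfer to elliptic functions**: the field generated over `K₁` by the coordinates of a point
which is generic over `K₁` is mapped to the ring of germs along the codiscrete filter, by
`℘(w) ↦ ℘`, `℘'(w) ↦ ℘'`; the images are elliptic functions, and the derivation `D` with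
`D ℘(w) = ℘'(w)` becomes the differentiation. -/
theorem transfer {K₁ : Type*} [Field K₁] [Algebra K₁ ℂ] {w : ℂ} (hw : 2 * w ∉ L.lattice)
    (hy : Transcendental K₁ (℘[L] w))
    (h2 : L.g₂ ∈ (algebraMap K₁ ℂ).range) (h3 : L.g₃ ∈ (algebraMap K₁ ℂ).range)
    (D : Derivation K₁ ℂ ℂ) (hD : D (℘[L] w) = ℘'[L] w) :
    ∃ Θ : IntermediateField.adjoin K₁ ({℘[L] w, ℘'[L] w} : Set ℂ) →+*
        Germ (codiscrete ℂ) ℂ,
      (∀ k : K₁, Θ (algebraMap K₁ _ k) =
        ((fun _ => algebraMap K₁ ℂ k : ℂ → ℂ) : Germ (codiscrete ℂ) ℂ)) ∧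
      (∀ e : IntermediateField.adjoin K₁ ({℘[L] w, ℘'[L] w} : Set ℂ), (e : ℂ) = ℘[L] w → Θ e = ((℘[L] : ℂ → ℂ) : Germ (codiscrete ℂ) ℂ)) ∧
      (∀ e : IntermediateField.adjoin K₁ ({℘[L] w, ℘'[L] w} : Set ℂ), (e : ℂ) = ℘'[L] w → Θ e = ((℘'[L] : ℂ → ℂ) : Germ (codiscrete ℂ) ℂ)) ∧
      ∀ e, ∃ f : ℂ → ℂ, Ellip L f ∧ Θ e = (f : Germ (codiscrete ℂ) ℂ) ∧
        ∀ e' : IntermediateField.adjoin K₁ ({℘[L] w, ℘'[L] w} : Set ℂ), (e' : ℂ) = D e →
          Θ e' = ((deriv f : ℂ → ℂ) : Germ (codiscrete ℂ) ℂ) := by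
  have hw1 : w ∉ L.lattice := fun h => hw (by rw [two_mul]; exact add_mem h h)
  have h2' := h2
  have h3' := h3
  obtain ⟨a, ha⟩ := h2
  obtain ⟨b, hb⟩ := h3
  have hchar : CharZero K₁ := char0
  set E := IntermediateField.adjoin K₁ ({℘[L] w, ℘'[L] w} : Set ℂ) with hE
  have hex : ∀ e : E, ∃ g, Rel L K₁ w (e : ℂ) g := by
    rintro ⟨e, he⟩
    change ∃ g, Rel L K₁ w e g
    induction he using IntermediateField.adjoin_induction with
    | mem x hx' =>
      rcases hx' with rfl | hx'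
      · exact ⟨_, Rel.x w⟩
      · rw [Set.mem_singleton_iff] at hx'
        subst hx'
        exact ⟨_, Rel.y w⟩
    | algebraMap k => exact ⟨_, Rel.alg w k⟩
    | add x y hx hy ihx ihy =>
      obtain ⟨g, hg⟩ := ihx
      obtain ⟨g', hg'⟩ := ihy
      exact ⟨_, hg.add hg'⟩
    | inv x hx ihx =>
      obtain ⟨g, hg⟩ := ihx
      exact hg.inv ha hb hw1
    | mul x y hx hy ihx ihy =>
      obtain ⟨g, hg⟩ := ihx
      obtain ⟨g', hg'⟩ := ihy
      exact ⟨_, hg.mul hg'⟩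
  choose th hth using hex
  have huniq : ∀ (e : E) (g), Rel L K₁ w (e : ℂ) g → th e = g := fun e g h =>
    Rel.uniq ha hb hw1 hy (hth e) h
  have hone : Rel L K₁ w (1 : ℂ) 1 := by
    have := Rel.alg (L := L) w (1 : K₁)
    rw [map_one] at this
    exact this
  have hzero : Rel L K₁ w (0 : ℂ) 0 := by
    have := Rel.alg (L := L) w (0 : K₁)
    rw [map_zero] at this
    exact this
  let Θ : E →+* Germ (codiscrete ℂ) ℂ :=
    { toFun := th
      map_one' := huniq 1 1 hone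
      map_zero' := huniq 0 0 hzero
      map_mul' := fun x y => huniq _ _ ((hth x).mul (hth y))
      map_add' := fun x y => huniq _ _ ((hth x).add (hth y)) }
  have hΘ : ∀ (e : E) (g), Rel L K₁ w (e : ℂ) g → Θ e = g := huniq
  have hΘa : ∀ k : K₁, Θ (algebraMap K₁ _ k) =
        ((fun _ => algebraMap K₁ ℂ k : ℂ → ℂ) : Germ (codiscrete ℂ) ℂ) :=
    fun k => hΘ _ _ (Rel.alg w k)
  have hΘx : ∀ e : E, (e : ℂ) = ℘[L] w → Θ e = ((℘[L] : ℂ → ℂ) : Germ (codiscrete ℂ) ℂ) := by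
    intro e he
    apply hΘ
    rw [he]; exact Rel.x w
  have hΘy : ∀ e : E, (e : ℂ) = ℘'[L] w → Θ e = ((℘'[L] : ℂ → ℂ) : Germ (codiscrete ℂ) ℂ) := by
    intro e he
    apply hΘ
    rw [he]; exact Rel.y w
  have hx : ℘[L] w ∈ E := IntermediateField.subset_adjoin _ _ (by simp)
  have hd := dwp' hw h2' h3' D hD
  refine ⟨Θ, hΘa, hΘx, hΘy, ?_⟩
  rintro ⟨e, he⟩
  change ∃ f : ℂ → ℂ, Ellip L f ∧ Θ ⟨e, he⟩ = (f : Germ (codiscrete ℂ) ℂ) ∧
    ∀ e' : E, (e' : ℂ) = D e → Θ e' = ((deriv f : ℂ → ℂ) : Germ (codiscrete ℂ) ℂ)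
  induction he using IntermediateField.adjoin_induction with
  | mem x hx' =>
    rcases hx' with rfl | hx'
    · refine ⟨℘[L], e_wp, hΘx _ rfl, ?_⟩
      intro e' he'
      rw [hD] at he'
      rw [hΘy e' he', L.deriv_weierstrassP]
    · rw [Set.mem_singleton_iff] at hx'
      subst hx'
      refine ⟨℘'[L], e_wp', hΘy _ rfl, ?_⟩
      intro e' he'
      rw [hd] at he'
      have h1 : e' = 6 * (⟨℘[L] w, hx⟩ : E) ^ 2 - algebraMap K₁ E (a / 2) := by
        apply Subtype.ext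
        rw [he', ← ha]
        push_cast
        rw [map_ofNat]
        rfl
      rw [h1, map_sub, map_mul, map_pow, map_ofNat, hΘa, hΘx ⟨℘[L] w, hx⟩ rfl]
      have h4 : (6 * ((℘[L] : ℂ → ℂ) : Germ (codiscrete ℂ) ℂ) ^ 2 -
          ((fun _ => algebraMap K₁ ℂ (a / 2) : ℂ → ℂ) : Germ (codiscrete ℂ) ℂ)) =
          ((fun z => 6 * ℘[L] z ^ 2 - algebraMap K₁ ℂ (a / 2) : ℂ → ℂ) :
            Germ (codiscrete ℂ) ℂ) := rfl
      rw [h4]
      refine Germ.coe_eq.mpr ?_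
      filter_upwards [ev_lat2 L] with z hz
      rw [(hasDerivAt_wp' L hz).deriv, map_div₀, ha, map_ofNat]
  | algebraMap k =>
    refine ⟨fun _ => algebraMap K₁ ℂ k, e_const _, hΘa k, ?_⟩
    intro e' he'
    rw [Derivation.map_algebraMap] at he'
    have h1 : e' = 0 := Subtype.ext he'
    rw [h1, map_zero]
    refine Germ.coe_eq.mpr ?_
    refine Eventually.of_forall fun z => ?_
    simp
  | add x y hx hy ihx ihy =>
    obtain ⟨f, hf, hf1, hf2⟩ := ihx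
    obtain ⟨g, hg, hg1, hg2⟩ := ihy
    refine ⟨fun z => f z + g z, e_add hf hg, ?_, ?_⟩
    · have h1 : (⟨x + y, add_mem hx hy⟩ : E) = ⟨x, hx⟩ + ⟨y, hy⟩ := rfl
      rw [h1, map_add, hf1, hg1]
      rfl
    · intro e' he'
      have hDx : D x ∈ E := der_mem hw h2' h3' D hD hx
      have hDy : D y ∈ E := der_mem hw h2' h3' D hD hy
      have h1 : e' = ⟨D x, hDx⟩ + ⟨D y, hDy⟩ := Subtype.ext (by rw [he', map_add]; rfl)
      rw [h1, map_add, hf2 _ rfl, hg2 _ rfl, ← Germ.coe_add]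
      refine Germ.coe_eq.mpr ?_
      filter_upwards [e_diff hf, e_diff hg] with z hz1 hz2
      exact (deriv_add hz1 hz2).symm
  | inv x hx ihx =>
    obtain ⟨f, hf, hf1, hf2⟩ := ihx
    by_cases hx0 : x = 0
    · subst hx0
      refine ⟨fun _ => 0, e_const 0, ?_, ?_⟩
      · have h1 : (⟨(0 : ℂ)⁻¹, inv_mem hx⟩ : E) = 0 := Subtype.ext inv_zero
        rw [h1, map_zero]; rfl
      · intro e' he'
        rw [inv_zero, map_zero] at he'
        have h1 : e' = 0 := Subtype.ext he'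
        rw [h1, map_zero]
        refine Germ.coe_eq.mpr (Eventually.of_forall fun z => ?_)
        simp
    · have hne : ∀ᶠ z in codiscrete ℂ, f z ≠ 0 := by
        have h1 : (⟨x, hx⟩ : E) * ⟨x⁻¹, inv_mem hx⟩ = 1 := Subtype.ext (mul_inv_cancel₀ hx0)
        have h2 := congrArg Θ h1
        rw [map_mul, hf1, map_one] at h2
        obtain ⟨v, hv⟩ := Quotient.exists_rep (Θ ⟨x⁻¹, inv_mem hx⟩)
        rw [← hv] at h2
        have h3 : ((fun z => f z * v z : ℂ → ℂ) : Germ (codiscrete ℂ) ℂ) =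
            ((fun _ => 1 : ℂ → ℂ) : Germ (codiscrete ℂ) ℂ) := h2
        filter_upwards [Germ.coe_eq.mp h3] with z hz h0
        rw [h0, zero_mul] at hz
        exact zero_ne_one hz
      refine ⟨fun z => (f z)⁻¹, e_inv hf, ?_, ?_⟩
      · have h1 : (⟨x, hx⟩ : E) * ⟨x⁻¹, inv_mem hx⟩ = 1 := Subtype.ext (mul_inv_cancel₀ hx0)
        have h2 := congrArg Θ h1
        rw [map_mul, hf1, map_one] at h2
        have h3 : ((fun z => (f z)⁻¹ : ℂ → ℂ) : Germ (codiscrete ℂ) ℂ) *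
            (f : Germ (codiscrete ℂ) ℂ) = 1 := by
          rw [← Germ.coe_mul]
          refine Germ.coe_eq.mpr ?_
          filter_upwards [hne] with z hz
          exact inv_mul_cancel₀ hz
        calc Θ ⟨x⁻¹, inv_mem hx⟩ = (((fun z => (f z)⁻¹ : ℂ → ℂ) : Germ (codiscrete ℂ) ℂ) *
            (f : Germ (codiscrete ℂ) ℂ)) * Θ ⟨x⁻¹, inv_mem hx⟩ := by rw [h3, one_mul]
          _ = ((fun z => (f z)⁻¹ : ℂ → ℂ) : Germ (codiscrete ℂ) ℂ) := by
            rw [mul_assoc, h2, mul_one]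
      · intro e' he'
        have hDx : D x ∈ E := der_mem hw h2' h3' D hD hx
        have h1 : (⟨x, hx⟩ : E) ^ 2 * e' = -⟨D x, hDx⟩ := by
          apply Subtype.ext
          push_cast
          rw [he', Derivation.leibniz_inv, smul_eq_mul]
          field_simp
        have h2 := congrArg Θ h1
        rw [map_mul, map_pow, map_neg, hf1, hf2 ⟨D x, hDx⟩ rfl] at h2
        obtain ⟨v, hv⟩ := Quotient.exists_rep (Θ e')
        rw [← hv] at h2 ⊢
        have h3 : ((fun z => f z ^ 2 * v z : ℂ → ℂ) : Germ (codiscrete ℂ) ℂ) =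
            ((fun z => - deriv f z : ℂ → ℂ) : Germ (codiscrete ℂ) ℂ) := h2
        refine Germ.coe_eq.mpr ?_
        filter_upwards [Germ.coe_eq.mp h3, hne, e_diff hf] with z h4 h5 h6
        have h7 : deriv (fun z => (f z)⁻¹) z = - deriv f z / f z ^ 2 :=
          (h6.hasDerivAt.fun_inv h5).deriv
        rw [h7, ← h4]
        field_simp
  | mul x y hx hy ihx ihy =>
    obtain ⟨f, hf, hf1, hf2⟩ := ihx
    obtain ⟨g, hg, hg1, hg2⟩ := ihy
    refine ⟨fun z => f z * g z, e_mul hf hg, ?_, ?_⟩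
    · have h1 : (⟨x * y, mul_mem hx hy⟩ : E) = ⟨x, hx⟩ * ⟨y, hy⟩ := rfl
      rw [h1, map_mul, hf1, hg1]
      rfl
    · intro e' he'
      have hDx : D x ∈ E := der_mem hw h2' h3' D hD hx
      have hDy : D y ∈ E := der_mem hw h2' h3' D hD hy
      have h1 : e' = ⟨x, hx⟩ * ⟨D y, hDy⟩ + ⟨y, hy⟩ * ⟨D x, hDx⟩ :=
        Subtype.ext (by rw [he', D.leibniz]; rfl)
      rw [h1, map_add, map_mul, map_mul, hf2 ⟨D x, hDx⟩ rfl, hg2 ⟨D y, hDy⟩ rfl, hf1, hg1, ← Germ.coe_mul,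
        ← Germ.coe_mul, ← Germ.coe_add]
      refine Germ.coe_eq.mpr ?_
      filter_upwards [e_diff hf, e_diff hg] with z hz1 hz2
      have h7 : deriv (fun z => f z * g z) z = deriv f z * g z + f z * deriv g z :=
        (hz1.hasDerivAt.fun_mul hz2.hasDerivAt).deriv
      rw [h7]
      simp only [Pi.add_apply, Pi.mul_apply]
      ring

end Pool.Agent.TH813.Ell
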